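import Pool.Agent.H64.Pent.Defs

set_option autoImplicit false

/-!
The isomorphism onto the Petersen graph when the matching is given by multiplication with `3` on
`ZMod 5`.
-/

namespace Pool.Agent.H50.Pent

open SimpleGraph Pool.Agent.H5.Goddyn Pool.Agent.H98.TC Pool.Agent.H64.Pent

theorem petersen_of_numb {V : Type*} [Finite V] (G : SimpleGraph V) (M C₁ C₂ : G.Subgraph)
    (h : IsPermutationGraph G M C₁ C₂) (x y : ZMod 5 → V) (p : Equiv.Perm (ZMod 5))
    (hx : Numb C₁ x) (hy : Numb C₂ y) (hM : ∀ i, M.Adj (x i) (y (p i))) (f : ZMod 5)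
    (hp : ∀ i, p i = p f + 3 * (i - f)) : IsPetersenPair G M := by
  classical
  have hMuniq : ∀ v w w', M.Adj v w → M.Adj v w' → w = w' := by
    intro v w w' h1 h2
    exact (h.perfect.1 (h.perfect.2 v)).unique h1 h2
  have hcover : ∀ v, v ∈ C₁.verts ∨ v ∈ C₂.verts := by
    intro v
    obtain ⟨m, hm, hmu⟩ := h.perfect.1 (h.perfect.2 v)
    have : ∃ t, t ∈ G.neighborSet v ∧ t ≠ m := by
      by_contra hcon
      push Not at hcon
      have hsub : G.neighborSet v ⊆ {m} := fun t ht => hcon t ht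
      have := Set.ncard_le_ncard hsub (Set.finite_singleton m)
      rw [h.cubic v, Set.ncard_singleton] at this
      omega
    obtain ⟨t, ht, htm⟩ := this
    have h1 := (h.union v t).mp ⟨ht, fun hMt => htm (hmu t hMt)⟩
    rcases h1 with h1 | h1
    · exact Or.inl (C₁.edge_vert h1)
    · exact Or.inr (C₂.edge_vert h1)
  have hnot : ∀ v, v ∈ C₁.verts → v ∉ C₂.verts := fun v h1 h2 =>
    Set.disjoint_left.mp h.disjoint h1 h2
  obtain ⟨hxi, hxr, hxa⟩ := hx
  obtain ⟨hyi, hyr, hya⟩ := hy
  have hx1 : ∀ i, x i ∈ C₁.verts := by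
    intro i
    rw [← hxr]
    exact ⟨i, rfl⟩
  have hy1 : ∀ j, y j ∈ C₂.verts := by
    intro j
    rw [← hyr]
    exact ⟨j, rfl⟩
  have hxy : ∀ i j, x i ≠ y j := by
    intro i j hij
    apply hnot _ (hx1 i)
    rw [hij]
    exact hy1 j
  have hMxy : ∀ i j, M.Adj (x i) (y j) ↔ j = p i := by
    intro i j
    constructor
    · intro h1
      exact hyi (hMuniq _ _ _ h1 (hM i))
    · rintro rfl
      exact hM i
  have hMxx : ∀ i j, ¬ M.Adj (x i) (x j) := by
    intro i j h1
    exact hxy _ _ (hMuniq _ _ _ h1 (hM i))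
  have hMyy : ∀ i j, ¬ M.Adj (y i) (y j) := by
    intro i j h1
    obtain ⟨k, rfl⟩ := p.surjective i
    exact hxy _ _ (hMuniq _ _ _ (hM k).symm h1)
  have hGxx : ∀ i j, G.Adj (x i) (x j) ↔ C₁.Adj (x i) (x j) := by
    intro i j
    constructor
    · intro h1
      rcases (h.union _ _).mp ⟨h1, hMxx i j⟩ with h2 | h2
      · exact h2
      · exact absurd (C₂.edge_vert h2) (hnot _ (hx1 i))
    · intro h1
      exact h1.adj_sub
  have hGyy : ∀ i j, G.Adj (y i) (y j) ↔ C₂.Adj (y i) (y j) := by
    intro i j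
    constructor
    · intro h1
      rcases (h.union _ _).mp ⟨h1, hMyy i j⟩ with h2 | h2
      · exact absurd (hy1 i) (hnot _ (C₁.edge_vert h2))
      · exact h2
    · intro h1
      exact h1.adj_sub
  have hGxy : ∀ i j, G.Adj (x i) (y j) ↔ j = p i := by
    intro i j
    rw [← hMxy]
    constructor
    · intro h1
      by_contra h3
      rcases (h.union _ _).mp ⟨h1, h3⟩ with h2 | h2
      · exact absurd (hy1 j) (hnot _ (C₁.edge_vert h2.symm))
      · exact absurd (C₂.edge_vert h2) (hnot _ (hx1 i))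
    · intro h1
      exact h1.adj_sub
  -- the bijection
  let ψ : Bool × ZMod 5 → V := fun u => if u.1 = true then y (p u.2) else x u.2
  have hψf : ∀ i, ψ (false, i) = x i := fun i => by simp [ψ]
  have hψt : ∀ i, ψ (true, i) = y (p i) := fun i => by simp [ψ]
  have hψ : Function.Bijective ψ := by
    constructor
    · rintro ⟨a, i⟩ ⟨b, j⟩ hij
      cases a <;> cases b
      · rw [hψf, hψf] at hij
        rw [hxi hij]
      · rw [hψf, hψt] at hij
        exact absurd hij (hxy _ _)
      · rw [hψf, hψt] at hij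
        exact absurd hij.symm (hxy _ _)
      · rw [hψt, hψt] at hij
        rw [p.injective (hyi hij)]
    · intro v
      rcases hcover v with hv | hv
      · rw [← hxr] at hv
        obtain ⟨i, rfl⟩ := hv
        exact ⟨(false, i), hψf i⟩
      · rw [← hyr] at hv
        obtain ⟨j, rfl⟩ := hv
        obtain ⟨k, rfl⟩ := p.surjective j
        exact ⟨(true, k), hψt k⟩
  have hpp : ∀ i k, p k = p i + 3 * (k - i) := by
    intro i k
    rw [hp k, hp i]
    ring
  have hkey : ∀ (c d : ZMod 5), (c + 3 * d = c - 1 ∨ c + 3 * d = c + 1) ↔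
      (d = 2 ∨ d = -2) := by decide
  have hadj : ∀ u v, G.Adj (ψ u) (ψ v) ↔ petersen.Adj u v := by
    rintro ⟨a, i⟩ ⟨b, j⟩
    cases a <;> cases b
    · rw [hψf, hψf, hGxx, hxa]
      constructor
      · rintro (h1 | h1)
        · have h2 := hxi h1
          refine Or.inl ⟨rfl, rfl, Or.inr ?_⟩
          show i = j + 1
          rw [h2]
          ring
        · have h2 := hxi h1
          exact Or.inl ⟨rfl, rfl, Or.inl h2⟩
      · rintro (⟨_, _, h1 | h1⟩ | ⟨h1, _⟩ | ⟨h1, _⟩)
        · right
          rw [show j = i + 1 from h1]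
        · left
          rw [show i = j + 1 from h1, add_sub_cancel_right]
        · exact absurd h1 (by simp)
        · exact absurd rfl h1
    · rw [hψf, hψt, hGxy]
      constructor
      · intro h1
        exact Or.inr (Or.inr ⟨by simp, (p.injective h1).symm⟩)
      · rintro (⟨_, h1, _⟩ | ⟨h1, _⟩ | ⟨_, h1⟩)
        · exact absurd h1 (by simp)
        · exact absurd h1 (by simp)
        · rw [show i = j from h1]
    · rw [hψf, hψt, G.adj_comm, hGxy]
      constructor
      · intro h1
        exact Or.inr (Or.inr ⟨by simp, p.injective h1⟩)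
      · rintro (⟨h1, _⟩ | ⟨_, h1, _⟩ | ⟨_, h1⟩)
        · exact absurd h1 (by simp)
        · exact absurd h1 (by simp)
        · rw [show i = j from h1]
    · rw [hψt, hψt, hGyy, hya]
      have h0 : (y (p j) = y (p i - 1) ∨ y (p j) = y (p i + 1)) ↔
          (p j = p i - 1 ∨ p j = p i + 1) := by
        rw [hyi.eq_iff, hyi.eq_iff]
      rw [h0, hpp i j, hkey]
      constructor
      · rintro (h1 | h1)
        · refine Or.inr (Or.inl ⟨rfl, rfl, Or.inl ?_⟩)
          show j = i + 2
          rw [← h1]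
          ring
        · refine Or.inr (Or.inl ⟨rfl, rfl, Or.inr ?_⟩)
          show i = j + 2
          have h2 : (2 : ZMod 5) = - (j - i) := by rw [h1]; ring
          rw [h2]
          ring
      · rintro (⟨h1, _⟩ | ⟨_, _, h1 | h1⟩ | ⟨h1, _⟩)
        · exact absurd h1 (by simp)
        · left
          rw [show j = i + 2 from h1]
          ring
        · right
          rw [show i = j + 2 from h1]
          ring
        · exact absurd rfl h1
  have hMadj : ∀ u v, M.Adj (ψ u) (ψ v) ↔ (u.1 ≠ v.1 ∧ u.2 = v.2) := by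
    rintro ⟨a, i⟩ ⟨b, j⟩
    cases a <;> cases b
    · rw [hψf, hψf]
      exact ⟨fun h1 => absurd h1 (hMxx _ _), fun h1 => absurd rfl h1.1⟩
    · rw [hψf, hψt, hMxy]
      exact ⟨fun h1 => ⟨by simp, (p.injective h1).symm⟩, fun h1 => by rw [show i = j from h1.2]⟩
    · rw [hψf, hψt, M.adj_comm, hMxy]
      exact ⟨fun h1 => ⟨by simp, p.injective h1⟩, fun h1 => by rw [show i = j from h1.2]⟩
    · rw [hψt, hψt]
      exact ⟨fun h1 => absurd h1 (hMyy _ _), fun h1 => absurd rfl h1.1⟩
  let e : Bool × ZMod 5 ≃ V := Equiv.ofBijective ψ hψ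
  have he : ∀ u, e u = ψ u := fun u => rfl
  refine ⟨⟨e.symm, ?_⟩, ?_⟩
  · intro u v
    rw [← hadj, ← he, ← he, e.apply_symm_apply, e.apply_symm_apply]
  · intro u v
    have h1 := hMadj (e.symm u) (e.symm v)
    rw [← he, ← he, e.apply_symm_apply, e.apply_symm_apply] at h1
    exact h1

end Pool.Agent.H50.Pent
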